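import Pool.Agent.H624.WS.Stm

/-!
# MP_33144e_an, pieces (HREG) and (MA)

The distributivity number is regular (if it is larger than `ℵ₁`), and Martin's axiom with the
negation of the continuum hypothesis gives `ℵ₁ < 𝔥 = 𝔰`.
-/

set_option autoImplicit false

open Set Cardinal

namespace Pool.Agent.H790.WS

open Pool.Agent.H624.WS

/-- Fewer than `𝔥` open dense families have a common member. -/
theorem sInter_nonempty_of_lt {𝒟 : Set (Set (Set ℕ))} (h : #𝒟 < distributivityNumber)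
    (hD : ∀ D ∈ 𝒟, OpenDense D) : (⋂₀ 𝒟).Nonempty := by
  by_contra hne
  rw [Set.not_nonempty_iff_eq_empty] at hne
  exact notMem_of_lt_csInf h (OrderBot.bddBelow _) ⟨𝒟, rfl, hD, hne⟩

/-- Fewer than `𝔥` open dense families have a common infinite member inside every infinite set. -/
theorem exists_mem_all {ι : Type} (hι : #ι < distributivityNumber) (D : ι → Set (Set ℕ))
    (hD : ∀ i, OpenDense (D i)) {M : Set ℕ} (hM : M.Infinite) :
    ∃ N, N ⊆ M ∧ N.Infinite ∧ ∀ i, N ∈ D i := by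
  classical
  rcases isEmpty_or_nonempty ι with hi | ⟨⟨i0⟩⟩
  · exact ⟨M, le_rfl, hM, fun i => (hi.false i).elim⟩
  set e : ℕ → ℕ := Nat.nth (· ∈ M) with he
  have hmono : StrictMono e := Nat.nth_strictMono hM
  have hrange : Set.range e = M := Nat.range_nth_of_infinite hM
  have hinj := hmono.injective
  let D' : ι → Set (Set ℕ) := fun i => {N | N.Infinite ∧ e '' N ∈ D i}
  have hD' : ∀ i, OpenDense (D' i) := by
    intro i
    refine ⟨fun N hN => hN.1, fun N hN K hK hKN => ⟨hK, ?_⟩, fun N hN => ?_⟩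
    · refine (hD i).2.1 _ hN.2 _ (hK.image hinj.injOn) ?_
      rw [← Set.image_sdiff hinj]
      exact hKN.image _
    · obtain ⟨L, hL, hLN⟩ := (hD i).2.2 (e '' N) (hN.image hinj.injOn)
      have hLe : e '' (e ⁻¹' L) = L :=
        Set.image_preimage_eq_of_subset (hLN.trans (Set.image_subset_range _ _))
      refine ⟨e ⁻¹' L, ⟨?_, ?_⟩, ?_⟩
      · intro hf
        exact (hD i).1 L hL (hLe ▸ hf.image e)
      · rwa [hLe]
      · intro x hx
        obtain ⟨y, hy, hxy⟩ := hLN hx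
        exact hinj hxy ▸ hy
  have hcard : #(Set.range D') < distributivityNumber := lt_of_le_of_lt mk_range_le hι
  obtain ⟨N, hN⟩ := sInter_nonempty_of_lt hcard (by rintro _ ⟨i, rfl⟩; exact hD' i)
  have hNi : ∀ i, N ∈ D' i := fun i => hN _ ⟨i, rfl⟩
  exact ⟨e '' N, hrange ▸ Set.image_subset_range _ _, (hNi i0).1.image hinj.injOn,
    fun i => (hNi i).2⟩

theorem distr_attained (h0 : 0 < distributivityNumber) : ∃ 𝒟 : Set (Set (Set ℕ)),
    #𝒟 = distributivityNumber ∧ (∀ D ∈ 𝒟, OpenDense D) ∧ ⋂₀ 𝒟 = ∅ := by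
  have hne : {κ | ∃ 𝒟 : Set (Set (Set ℕ)), #𝒟 = κ ∧ (∀ D ∈ 𝒟, OpenDense D) ∧
      ⋂₀ 𝒟 = ∅}.Nonempty := by
    by_contra h
    rw [Set.not_nonempty_iff_eq_empty] at h
    rw [distributivityNumber, h, Cardinal.sInf_empty] at h0
    exact lt_irrefl _ h0
  exact csInf_mem hne

theorem sHREG : S_HREG := by
  intro h
  have hω : ℵ₀ ≤ distributivityNumber := (aleph0_le_aleph 1).trans h.le
  refine ⟨hω, ?_⟩
  by_contra hcof
  rw [not_le] at hcof
  obtain ⟨𝒟, hcard, hod, hemp⟩ := distr_attained (lt_of_lt_of_le aleph0_pos hω)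
  have hα : #(distributivityNumber.ord.ToType) = distributivityNumber := mk_ord_toType _
  obtain ⟨e⟩ : Nonempty (𝒟 ≃ distributivityNumber.ord.ToType) :=
    Cardinal.eq.1 (hcard.trans hα.symm)
  obtain ⟨S, hS, hSc⟩ := Order.exists_cof_eq distributivityNumber.ord.ToType
  rw [Ordinal.cof_toType] at hSc
  have hSlt : #S < distributivityNumber := hSc ▸ hcof
  let E : S → Set (Set ℕ) := fun s => {M | M.Infinite ∧
    ∀ a : distributivityNumber.ord.ToType, a ≤ s → M ∈ (e.symm a : Set (Set ℕ))}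
  have hE : ∀ s, OpenDense (E s) := by
    intro s
    refine ⟨fun M hM => hM.1, fun M hM N hN hNM => ⟨hN, fun a ha =>
      (hod _ (e.symm a).2).2.1 M (hM.2 a ha) N hN hNM⟩, fun M hM => ?_⟩
    have hlt : #(Set.Iic (s : distributivityNumber.ord.ToType)) < distributivityNumber := by
      rw [← Set.Iio_insert]
      refine mk_insert_le.trans_lt (add_lt_of_lt hω ?_ (one_lt_aleph0.trans_le hω))
      have := mk_Iio_lt (s : distributivityNumber.ord.ToType) (by simp)
      rwa [hα] at this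
    obtain ⟨N, hNM, hN, hNa⟩ := exists_mem_all hlt
      (fun a => (e.symm a.1 : Set (Set ℕ))) (fun a => hod _ (e.symm a.1).2) hM
    exact ⟨N, ⟨hN, fun a ha => hNa ⟨a, ha⟩⟩, hNM⟩
  obtain ⟨N, -, -, hN⟩ := exists_mem_all hSlt E hE Set.infinite_univ
  have : N ∈ ⋂₀ 𝒟 := by
    intro D hD
    obtain ⟨s, hs, hle⟩ := hS (e ⟨D, hD⟩)
    have := (hN ⟨s, hs⟩).2 (e ⟨D, hD⟩) hle
    simpa using this
  rw [hemp] at this
  exact this

end Pool.Agent.H790.WS
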