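import Pool.Agent.H624.WS.Stm

/-!
# MP_33144e_an, piece (MA)

Martin's axiom with the negation of the continuum hypothesis gives `ℵ₁ < 𝔥 = 𝔰` (in fact
`𝔥 = 𝔰 = 𝔠`).
-/

set_option autoImplicit false

open Set Cardinal

namespace Pool.Agent.H790.WS

open Pool.Agent.H624.WS

/-! ### Pseudointersections -/

/-- The conditions: a finite set and a finite list of promises. -/
@[ext] structure Cond {I : Type} (A : I → Set ℕ) : Type where
  /-- the working part -/
  s : Finset ℕ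
  /-- the promises -/
  F : Finset I

section
variable {I : Type} {A : I → Set ℕ}

instance : PartialOrder (Cond A) where
  le q p := p.s ⊆ q.s ∧ p.F ⊆ q.F ∧ ∀ n ∈ q.s, n ∉ p.s → ∀ i ∈ p.F, n ∈ A i
  le_refl p := ⟨subset_rfl, subset_rfl, fun n hn hn' => absurd hn hn'⟩
  le_trans r q p h1 h2 := ⟨h2.1.trans h1.1, h2.2.1.trans h1.2.1, fun n hn hn' i hi => by
    by_cases h : n ∈ q.s
    · exact h2.2.2 n h hn' i hi
    · exact h1.2.2 n hn h i (h2.2.1 hi)⟩
  le_antisymm p q h1 h2 := Cond.ext (h2.1.antisymm h1.1) (h2.2.1.antisymm h1.2.1)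

instance : Nonempty (Cond A) := ⟨⟨∅, ∅⟩⟩

theorem ccc (S : Set (Cond A)) (hS : ∀ p ∈ S, ∀ q ∈ S, p ≠ q → ¬ ∃ r, r ≤ p ∧ r ≤ q) :
    S.Countable := by
  classical
  refine Set.countable_of_injective_of_countable_image (f := fun p : Cond A => p.s) ?_
    (Set.to_countable _)
  intro p hp q hq hpq
  by_contra hne
  refine hS p hp q hq hne ⟨⟨p.s, p.F ∪ q.F⟩, ?_, ?_⟩
  · exact ⟨subset_rfl, Finset.subset_union_left, fun n hn hn' => absurd hn hn'⟩
  · have hpq' : p.s = q.s := hpq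
    refine ⟨hpq' ▸ subset_rfl, Finset.subset_union_right, fun n hn hn' => absurd ?_ hn'⟩
    rw [← hpq']
    exact hn
end

/-- Every family of fewer than continuum many sets with infinite finite intersections has an
infinite pseudointersection, if Martin's axiom holds. -/
theorem exists_pseudo (hMA : MartinAxiom) {I : Type} (hI : #I < continuum) (A : I → Set ℕ)
    (hA : ∀ F : Finset I, (⋂ i ∈ F, A i).Infinite) :
    ∃ B : Set ℕ, B.Infinite ∧ ∀ i, (B \ A i).Finite := by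
  classical
  let D : I → Set (Cond A) := fun i => {p | i ∈ p.F}
  let E : ℕ → Set (Cond A) := fun n => {p | ∃ m ∈ p.s, n ≤ m}
  have hcard : #(range D ∪ range E : Set (Set (Cond A))) < continuum := by
    refine (mk_union_le _ _).trans_lt (add_lt_of_lt aleph0_le_continuum
      (mk_range_le.trans_lt hI) ?_)
    exact (mk_range_le.trans (le_of_eq mk_nat)).trans_lt aleph0_lt_continuum
  obtain ⟨G, hne, hup, hdir, hG⟩ := hMA (Cond A) ccc (range D ∪ range E) hcard (by
    rintro _ (⟨i, rfl⟩ | ⟨n, rfl⟩) p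
    · refine ⟨⟨p.s, insert i p.F⟩, Finset.mem_insert_self _ _, ?_⟩
      exact ⟨subset_rfl, Finset.subset_insert _ _, fun n hn hn' => absurd hn hn'⟩
    · obtain ⟨m, hm, hmn⟩ := (hA p.F).exists_gt n
      refine ⟨⟨insert m p.s, p.F⟩, ⟨m, Finset.mem_insert_self _ _, hmn.le⟩, ?_⟩
      refine ⟨Finset.subset_insert _ _, subset_rfl, fun k hk hk' i hi => ?_⟩
      rcases Finset.mem_insert.1 hk with rfl | h
      · exact mem_iInter₂.1 hm i hi
      · exact absurd h hk')
  refine ⟨⋃ p ∈ G, (p.s : Set ℕ), ?_, fun i => ?_⟩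
  · refine Set.infinite_of_not_bddAbove ?_
    rintro ⟨b, hb⟩
    obtain ⟨p, hp, hpG⟩ := hG (E (b + 1)) (Or.inr ⟨_, rfl⟩)
    obtain ⟨m, hm, hbm⟩ := hp
    have := hb (mem_iUnion₂.2 ⟨p, hpG, Finset.mem_coe.2 hm⟩)
    omega
  · obtain ⟨p, hp, hpG⟩ := hG (D i) (Or.inl ⟨_, rfl⟩)
    refine p.s.finite_toSet.subset ?_
    rintro n ⟨hn, hni⟩
    obtain ⟨q, hqG, hnq⟩ := mem_iUnion₂.1 hn
    obtain ⟨r, -, hrp, hrq⟩ := hdir p hpG q hqG
    by_contra hnp
    exact hni (hrp.2.2 n (hrq.1 (Finset.mem_coe.1 hnq)) hnp i hp)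

/-! ### Towers -/

theorem inter_infinite {ι : Type} [LinearOrder ι] (M : ι → Set ℕ) (hinf : ∀ x, (M x).Infinite)
    (hdec : ∀ y z, y < z → (M z \ M y).Finite) (F : Finset ι) : (⋂ i ∈ F, M i).Infinite := by
  classical
  rcases F.eq_empty_or_nonempty with rfl | hF
  · simpa using Set.infinite_univ
  · set z := F.max' hF with hz
    intro hfin
    have hun : (⋃ i ∈ F, (M z \ M i)).Finite := by
      refine F.finite_toSet.biUnion (fun i hi => ?_)
      rcases (F.le_max' i hi).lt_or_eq with h | h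
      · exact hdec i z h
      · have hiz : i = z := h
        rw [hiz, sdiff_self]
        exact Set.finite_empty
    refine hinf z ((hfin.union hun).subset ?_)
    intro n hn
    by_cases h : n ∈ ⋂ i ∈ F, M i
    · exact Or.inl h
    · right
      simp only [Set.mem_iInter, not_forall] at h
      obtain ⟨i, hi, hni⟩ := h
      exact mem_iUnion₂.2 ⟨i, hi, hn, hni⟩

/-- A tower of length less than continuum through given open dense families. -/
theorem exists_tower (hMA : MartinAxiom) {ι : Type} (hι : #ι < continuum)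
    (D : ι → Set (Set ℕ)) (hod : ∀ i, OpenDense (D i)) : ∃ B : Set ℕ, ∀ i, B ∈ D i := by
  classical
  obtain ⟨lo, wf⟩ := exists_wellFoundedLT ι
  have hwf : WellFounded ((· < ·) : ι → ι → Prop) := wellFounded_lt
  let nxt : (x : ι) → ((y : ι) → y < x → Set ℕ) → Set ℕ := fun x f =>
    if h : ∃ N ∈ D x, ∀ y hy, (N \ f y hy).Finite then h.choose else ∅
  let M : ι → Set ℕ := hwf.fix nxt
  have hM : ∀ x, M x = nxt x (fun y _ => M y) := fun x => hwf.fix_eq nxt x
  have key : ∀ x : ι, M x ∈ D x ∧ ∀ y, y < x → (M x \ M y).Finite := by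
    intro x
    induction x using hwf.induction with
    | _ x ih =>
      have hex : ∃ N ∈ D x, ∀ y, y < x → (N \ M y).Finite := by
        obtain ⟨B, hB, hBy⟩ := exists_pseudo hMA (I := {y : ι // y < x})
          ((mk_subtype_le _).trans_lt hι) (fun y => M y.1) (inter_infinite _
            (fun y => (hod _).1 _ (ih y.1 y.2).1)
            (fun y z hyz => (ih z.1 z.2).2 y.1 hyz))
        obtain ⟨N, hN, hNB⟩ := (hod x).2.2 B hB
        exact ⟨N, hN, fun y hy => (hBy ⟨y, hy⟩).subset (Set.sdiff_subset_sdiff_left hNB)⟩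
      have hMx : M x = (if h : ∃ N ∈ D x, ∀ y (_ : y < x), (N \ M y).Finite
          then h.choose else ∅) := hM x
      rw [dif_pos hex] at hMx
      have := hex.choose_spec
      rw [hMx]
      exact this
  obtain ⟨B, hB, hBy⟩ := exists_pseudo hMA hι M (inter_infinite _
    (fun y => (hod _).1 _ (key y).1) (fun y z hyz => (key z).2 y hyz))
  exact ⟨B, fun i => (hod i).2.1 _ (key i).1 B hB (hBy i)⟩

theorem sInter_nonempty_of_lt_continuum (hMA : MartinAxiom) {𝒟 : Set (Set (Set ℕ))}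
    (h𝒟 : #𝒟 < continuum) (hod : ∀ D ∈ 𝒟, OpenDense D) : (⋂₀ 𝒟).Nonempty := by
  obtain ⟨B, hB⟩ := exists_tower hMA h𝒟 (fun D => (D : Set (Set ℕ))) (fun D => hod D D.2)
  exact ⟨B, fun D hD => hB ⟨D, hD⟩⟩

/-! ### Splitting families -/

theorem isSplitting_univ : IsSplitting (Set.univ : Set (Set ℕ)) := by
  intro M hM
  set e : ℕ → ℕ := Nat.nth (· ∈ M) with he
  have hmono : StrictMono e := Nat.nth_strictMono hM
  have hrange : ∀ n, e n ∈ M := fun n => Nat.nth_mem_of_infinite hM n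
  refine ⟨e '' {n | Even n}, trivial, ?_, ?_⟩
  · refine ((Set.infinite_of_injective_forall_mem (f := fun n : ℕ => 2 * n)
      (fun a b h => by simpa using h) (s := {n | Even n}) (fun n => even_two_mul n)).image
      hmono.injective.injOn).mono ?_
    rintro _ ⟨n, hn, rfl⟩
    exact ⟨hrange n, n, hn, rfl⟩
  · refine ((Set.infinite_of_injective_forall_mem (f := fun n : ℕ => 2 * n + 1)
      (fun a b h => by simpa using h) (s := {n | ¬ Even n}) (fun n => by
        simp)).image hmono.injective.injOn).mono ?_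
    rintro _ ⟨n, hn, rfl⟩
    refine ⟨hrange n, ?_⟩
    rintro ⟨m, hm, hmn⟩
    exact hn (hmono.injective hmn ▸ hm)

/-- The family of infinite sets which are not split by `S`. -/
theorem openDense_notSplit (S : Set ℕ) : OpenDense {M | M.Infinite ∧ ¬ Splits S M} := by
  refine ⟨fun M hM => hM.1, fun M hM N hN hNM => ⟨hN, fun hs => hM.2 ⟨?_, ?_⟩⟩, fun M hM => ?_⟩
  · intro hf
    refine hs.1 ((hf.union hNM).subset ?_)
    rintro n ⟨h1, h2⟩
    by_cases h : n ∈ M
    · exact Or.inl ⟨h, h2⟩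
    · exact Or.inr ⟨h1, h⟩
  · intro hf
    refine hs.2 ((hf.union hNM).subset ?_)
    rintro n ⟨h1, h2⟩
    by_cases h : n ∈ M
    · exact Or.inl ⟨h, h2⟩
    · exact Or.inr ⟨h1, h⟩
  · by_cases h : (M ∩ S).Infinite
    · refine ⟨M ∩ S, ⟨h, fun hs => hs.2 ?_⟩, Set.inter_subset_left⟩
      have : (M ∩ S) \ S = ∅ := by
        ext n; simp
      rw [this]; exact Set.finite_empty
    · have h2 : (M \ S).Infinite := by
        intro hf
        refine hM (((Set.not_infinite.1 h).union hf).subset ?_)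
        intro n hn
        by_cases h : n ∈ S
        · exact Or.inl ⟨hn, h⟩
        · exact Or.inr ⟨hn, h⟩
      refine ⟨M \ S, ⟨h2, fun hs => hs.1 ?_⟩, Set.sdiff_subset⟩
      have : (M \ S) ∩ S = ∅ := by
        ext n; simp
      rw [this]; exact Set.finite_empty

theorem splittingNumber_mem : ∃ 𝒮 : Set (Set ℕ), #𝒮 = splittingNumber ∧ IsSplitting 𝒮 :=
  csInf_mem (s := {κ | ∃ 𝒮 : Set (Set ℕ), #𝒮 = κ ∧ IsSplitting 𝒮})
    ⟨_, Set.univ, rfl, isSplitting_univ⟩

theorem exists_family (𝒮 : Set (Set ℕ)) (h𝒮 : IsSplitting 𝒮) :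
    ∃ 𝒟 : Set (Set (Set ℕ)), #𝒟 ≤ #𝒮 ∧ (∀ D ∈ 𝒟, OpenDense D) ∧ ⋂₀ 𝒟 = ∅ := by
  refine ⟨Set.range (fun S : 𝒮 => {M | M.Infinite ∧ ¬ Splits S M}), mk_range_le, ?_, ?_⟩
  · rintro _ ⟨S, rfl⟩
    exact openDense_notSplit S
  · rw [Set.eq_empty_iff_forall_notMem]
    intro M hM
    obtain ⟨S₀, hS₀, -⟩ := h𝒮 Set.univ Set.infinite_univ
    have h1 : M.Infinite := (hM _ ⟨⟨S₀, hS₀⟩, rfl⟩).1
    obtain ⟨S, hS, hs⟩ := h𝒮 M h1
    exact (hM _ ⟨⟨S, hS⟩, rfl⟩).2 hs

/-- `𝔥 ≤ 𝔰` -/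
theorem distributivityNumber_le_splittingNumber : distributivityNumber ≤ splittingNumber := by
  obtain ⟨𝒮, hc, hs⟩ := splittingNumber_mem
  obtain ⟨𝒟, hD, hod, hemp⟩ := exists_family 𝒮 hs
  rw [← hc]
  have hmem : #𝒟 ∈ {κ : Cardinal.{0} | ∃ 𝒟 : Set (Set (Set ℕ)), #𝒟 = κ ∧
    (∀ D ∈ 𝒟, OpenDense D) ∧ ⋂₀ 𝒟 = ∅} := ⟨𝒟, rfl, hod, hemp⟩
  exact (csInf_le' hmem).trans hD

/-- `𝔰 ≤ 𝔠` -/
theorem splittingNumber_le_continuum : splittingNumber ≤ continuum := by
  have : splittingNumber ≤ #(Set.univ : Set (Set ℕ)) :=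
    csInf_le' (⟨_, rfl, isSplitting_univ⟩ : #(Set.univ : Set (Set ℕ)) ∈
      {κ | ∃ 𝒮 : Set (Set ℕ), #𝒮 = κ ∧ IsSplitting 𝒮})
  simpa using this

theorem continuum_le_distributivityNumber (hMA : MartinAxiom) :
    continuum ≤ distributivityNumber := by
  obtain ⟨𝒟, -, hod, hemp⟩ := exists_family _ isSplitting_univ
  refine le_csInf ⟨_, 𝒟, rfl, hod, hemp⟩ ?_
  rintro κ ⟨𝒟, rfl, hod, hemp⟩
  by_contra hlt
  rw [not_le] at hlt
  have := sInter_nonempty_of_lt_continuum hMA hlt hod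
  rw [hemp] at this
  exact Set.not_nonempty_empty this

theorem sMA : S_MA := by
  intro hMA h1
  have h2 := continuum_le_distributivityNumber hMA
  exact ⟨h1.trans_le h2, le_antisymm distributivityNumber_le_splittingNumber
    (splittingNumber_le_continuum.trans h2)⟩

end Pool.Agent.H790.WS
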